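import Pool.Agent.T6.H28.EG.Defs

/-! Project EG (`MP_3fe32a_ag`): transport of the local length under an automorphism (helper52). -/

open MvPolynomial

namespace H28.EG

namespace ModLen

lemma primeCompl_map (σ : S ≃+* S) (P P' : Ideal S) [P.IsPrime] [P'.IsPrime]
    (hP : ∀ x, x ∈ P ↔ σ x ∈ P') :
    P.primeCompl.map (σ : S ≃* S).toMonoidHom = P'.primeCompl := by
  ext y
  simp only [Submonoid.mem_map, Ideal.mem_primeCompl_iff]
  constructor
  · rintro ⟨x, hx, rfl⟩
    exact fun h => hx ((hP x).2 h)
  · intro hy
    refine ⟨σ.symm y, fun h => hy ?_, ?_⟩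
    · have := (hP (σ.symm y)).1 h
      rwa [RingEquiv.apply_symm_apply] at this
    · exact σ.apply_symm_apply y

/-- the local length is transported by an automorphism -/
theorem locLength_map (σ : S ≃+* S) (P P' : Ideal S) [hp : P.IsPrime] [hp' : P'.IsPrime]
    (hP : ∀ x, x ∈ P ↔ σ x ∈ P') (I I' : Ideal S) (hI : I' = I.map (σ : S →+* S)) :
    locLength P' I' = locLength P I := by
  subst hI
  unfold locLength
  let e : Localization.AtPrime P ≃+* Localization.AtPrime P' :=
    IsLocalization.ringEquivOfRingEquiv (M := P.primeCompl) (T := P'.primeCompl)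
      (Localization.AtPrime P) (Localization.AtPrime P') σ (primeCompl_map σ P P' hP)
  have he : ∀ x : S, e (algebraMap S (Localization.AtPrime P) x) =
      algebraMap S (Localization.AtPrime P') (σ x) := fun x =>
    IsLocalization.ringEquivOfRingEquiv_eq (primeCompl_map σ P P' hP) x
  let _ : Algebra (Localization.AtPrime P) (Localization.AtPrime P') :=
    (e : Localization.AtPrime P →+* Localization.AtPrime P').toAlgebra
  let f : Localization.AtPrime P ≃ₐ[Localization.AtPrime P] Localization.AtPrime P' :=
    AlgEquiv.ofRingEquiv (f := e) (fun _ => rfl)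
  have hJ : (I.map (σ : S →+* S)).map (algebraMap S (Localization.AtPrime P')) =
      (I.map (algebraMap S (Localization.AtPrime P))).map
        (f : Localization.AtPrime P →+* Localization.AtPrime P') := by
    rw [Ideal.map_map, Ideal.map_map]
    congr 1
    exact RingHom.ext fun x => (he x).symm
  have h1 := (Ideal.quotientEquivAlg _ _ f hJ).toLinearEquiv.length_eq
  rw [h1]
  symm
  apply Module.length_eq_of_surjective
  intro y
  obtain ⟨x, hx⟩ := e.surjective y
  exact ⟨x, hx⟩

/-- the local length only depends on the localised ideal -/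
theorem locLength_congr (P I J : Ideal S) [hp : P.IsPrime] (hIJ : I ≤ J) (u : S) (hu : u ∉ P)
    (h : ∀ x ∈ J, u * x ∈ I) : locLength P I = locLength P J := by
  unfold locLength
  have : I.map (algebraMap S (Localization.AtPrime P)) =
      J.map (algebraMap S (Localization.AtPrime P)) := by
    refine le_antisymm (Ideal.map_mono hIJ) (Ideal.map_le_iff_le_comap.2 fun x hx => ?_)
    rw [Ideal.mem_comap]
    have h1 := Ideal.mem_map_of_mem (algebraMap S (Localization.AtPrime P)) (h x hx)
    rw [map_mul] at h1
    have h2 : IsUnit (algebraMap S (Localization.AtPrime P) u) :=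
      IsLocalization.map_units (Localization.AtPrime P) (⟨u, hu⟩ : P.primeCompl)
    exact (Ideal.unit_mul_mem_iff_mem _ h2).1 h1
  rw [this]

end ModLen

end H28.EG
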