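import Pool.Agent.T6.H52.EG.Len

/-! Project EG (`MP_3fe32a_ag`): module TRA, second version (helper52). -/

open MvPolynomial

namespace H28.EG

namespace ModTra

/-- `u = x0 + i x1`, `v = (x0 - i x1)/2`, `y = x2` -/
noncomputable def gu : Fin 3 → S :=
  ![X 0 + C Complex.I * X 1, C (1/2) * (X 0 - C Complex.I * X 1), X 2]

/-- `x0 = u/2 + v`, `x1 = -i (u/2 - v)`, `x2 = y` -/
noncomputable def gx : Fin 3 → S :=
  ![C (1/2) * X 0 + X 1, - C Complex.I * (C (1/2) * X 0 - X 1), X 2]

noncomputable def ph : S →ₐ[ℂ] S := aeval gu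

noncomputable def ps : S →ₐ[ℂ] S := aeval gx

lemma hI2 : (C Complex.I : S) * C Complex.I = -1 := by
  rw [← C_mul, Complex.I_mul_I]; simp

lemma h2 : (C (1/2) : S) * 2 = 1 := by
  have : (2 : S) = C 2 := (map_ofNat (C : ℂ →+* S) 2).symm
  rw [this, ← C_mul]
  norm_num

lemma ph0 : ph (X 0) = X 0 + C Complex.I * X 1 := by simp [ph, gu]
lemma ph1 : ph (X 1) = C (1/2) * (X 0 - C Complex.I * X 1) := by simp [ph, gu]
lemma ph2 : ph (X 2) = X 2 := by simp [ph, gu]
lemma ps0 : ps (X 0) = C (1/2) * X 0 + X 1 := by simp [ps, gx]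
lemma ps1 : ps (X 1) = - C Complex.I * (C (1/2) * X 0 - X 1) := by simp [ps, gx]
lemma ps2 : ps (X 2) = X 2 := by simp [ps, gx]
lemma phC (a : ℂ) : ph (C a) = C a := by simp [ph]
lemma psC (a : ℂ) : ps (C a) = C a := by simp [ps]

lemma ph_ps : ph.comp ps = AlgHom.id ℂ S := by
  apply MvPolynomial.algHom_ext
  intro k
  fin_cases k
  · show ph (ps (X 0)) = X 0
    rw [ps0, map_add, map_mul, phC, ph0, ph1]
    linear_combination (X 0 : S) * h2
  · show ph (ps (X 1)) = X 1
    rw [ps1, map_mul, map_neg, map_sub, map_mul, phC, phC, ph0, ph1]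
    linear_combination (-(2:S) * C (1/2) * X 1) * hI2 + (X 1 : S) * h2
  · show ph (ps (X 2)) = X 2
    rw [ps2, ph2]

lemma ps_ph : ps.comp ph = AlgHom.id ℂ S := by
  apply MvPolynomial.algHom_ext
  intro k
  fin_cases k
  · show ps (ph (X 0)) = X 0
    rw [ph0, map_add, map_mul, psC, ps0, ps1]
    linear_combination (-(C (1/2) * X 0 - X 1) : S) * hI2 + (X 0 : S) * h2
  · show ps (ph (X 1)) = X 1
    rw [ph1, map_mul, map_sub, map_mul, psC, psC, ps0, ps1]
    linear_combination (C (1/2) * (C (1/2) * X 0 - X 1) : S) * hI2 + (X 1 : S) * h2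
  · show ps (ph (X 2)) = X 2
    rw [ph2, ps2]

noncomputable def sig : S ≃ₐ[ℂ] S := AlgEquiv.ofAlgHom ph ps ph_ps ps_ph

lemma sig_apply (F : S) : sig F = ph F := rfl

lemma chain (j : Fin 3) (F : S) :
    pderiv j (ph F) = ∑ k, pderiv j (ph (X k)) * ph (pderiv k F) := by
  induction F using MvPolynomial.induction_on with
  | C a => simp [phC]
  | add p q hp hq =>
    simp only [map_add, hp, hq, mul_add, Finset.sum_add_distrib]
  | mul_X p n hp =>
    rw [map_mul, Derivation.leibniz, hp]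
    simp only [Derivation.leibniz, smul_eq_mul, map_add, map_mul, Fin.sum_univ_three]
    fin_cases n <;>
      simp [pderiv_X_self, pderiv_X_of_ne] <;> ring

lemma d00 (F : S) : pderiv 0 (ph F) = ph (pderiv 0 F) + C (1/2) * ph (pderiv 1 F) := by
  rw [chain, Fin.sum_univ_three, ph0, ph1, ph2]
  simp [pderiv_X_of_ne, Derivation.leibniz]

lemma d11 (F : S) : pderiv 1 (ph F) = C Complex.I * ph (pderiv 0 F) -
    C (1/2) * C Complex.I * ph (pderiv 1 F) := by
  rw [chain, Fin.sum_univ_three, ph0, ph1, ph2]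
  simp [pderiv_X_of_ne, Derivation.leibniz]
  ring

lemma d22 (F : S) : pderiv 2 (ph F) = ph (pderiv 2 F) := by
  rw [chain, Fin.sum_univ_three, ph0, ph1, ph2]
  simp [pderiv_X_of_ne, Derivation.leibniz]

lemma m01 (F : S) : X 0 * pderiv 1 (ph F) - X 1 * pderiv 0 (ph F) = C Complex.I * ph (E0 F) := by
  rw [d00, d11]
  unfold E0
  simp only [map_sub, map_mul, ph0, ph1]
  linear_combination (-(X 1 : S) * ph (pderiv 0 F) - C (1/2) * X 1 * ph (pderiv 1 F)) * hI2

lemma m02 (F : S) : X 0 * pderiv 2 (ph F) - X 2 * pderiv 0 (ph F) =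
    C (1/2) * ph (E1 F) + ph (E2 F) := by
  rw [d00, d22]
  unfold E1 E2
  simp only [map_sub, map_mul, ph0, ph1, ph2]
  linear_combination (-(X 0 : S) * ph (pderiv 2 F)) * h2

lemma m12 (F : S) : X 1 * pderiv 2 (ph F) - X 2 * pderiv 1 (ph F) =
    - C Complex.I * (C (1/2) * ph (E1 F) - ph (E2 F)) := by
  rw [d11, d22]
  unfold E1 E2
  simp only [map_sub, map_mul, ph0, ph1, ph2]
  linear_combination (C (1/2) * 2 * (X 1 : S) * ph (pderiv 2 F)) * hI2 -
    (X 1 : S) * ph (pderiv 2 F) * h2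

/-- the isotropic point `u = 1`, `v = y = 0` -/
noncomputable def ww : Fin 3 → ℂ := ![1, -Complex.I, 0]

lemma ww_ne : ww ≠ 0 := by
  intro h
  have := congrFun h 0
  simp [ww] at this

lemma ideal_eq (F : S) : eigenIdeal (ph F) =
    (Ideal.span {E0 F, E1 F, E2 F}).map ((sig : S ≃+* S) : S →+* S) := by
  have hs : ∀ G : S, ((sig : S ≃+* S) : S →+* S) G = ph G := fun _ => rfl
  rw [Ideal.map_span]
  apply le_antisymm
  · unfold eigenIdeal
    rw [Ideal.span_le]
    rintro g ⟨i, j, rfl⟩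
    set J : Ideal S := Ideal.span (((sig : S ≃+* S) : S →+* S) '' {E0 F, E1 F, E2 F}) with hJ
    have k0 : ph (E0 F) ∈ J := Ideal.subset_span ⟨E0 F, by simp, rfl⟩
    have k1 : ph (E1 F) ∈ J := Ideal.subset_span ⟨E1 F, by simp, rfl⟩
    have k2 : ph (E2 F) ∈ J := Ideal.subset_span ⟨E2 F, by simp, rfl⟩
    have q01 : X 0 * pderiv 1 (ph F) - X 1 * pderiv 0 (ph F) ∈ J := by
      rw [m01]; exact J.mul_mem_left _ k0
    have q02 : X 0 * pderiv 2 (ph F) - X 2 * pderiv 0 (ph F) ∈ J := by
      rw [m02]; exact J.add_mem (J.mul_mem_left _ k1) k2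
    have q12 : X 1 * pderiv 2 (ph F) - X 2 * pderiv 1 (ph F) ∈ J := by
      rw [m12]; exact J.mul_mem_left _ (J.sub_mem (J.mul_mem_left _ k1) k2)
    have r : ∀ a b : Fin 3, X a * pderiv b (ph F) - X b * pderiv a (ph F) ∈ J →
        X b * pderiv a (ph F) - X a * pderiv b (ph F) ∈ J := by
      intro a b h
      have := J.neg_mem h
      rwa [neg_sub] at this
    show X i * pderiv j (ph F) - X j * pderiv i (ph F) ∈ J
    fin_cases i <;> fin_cases j
    · simp
    · exact q01
    · exact q02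
    · exact r 0 1 q01
    · simp
    · exact q12
    · exact r 0 2 q02
    · exact r 1 2 q12
    · simp
  · rw [Ideal.span_le]
    have g : ∀ i j : Fin 3, X i * pderiv j (ph F) - X j * pderiv i (ph F) ∈ eigenIdeal (ph F) :=
      fun i j => Ideal.subset_span ⟨i, j, rfl⟩
    have g01 := g 0 1
    have g02 := g 0 2
    have g12 := g 1 2
    rintro x ⟨y, hy, rfl⟩
    show ph y ∈ eigenIdeal (ph F)
    simp only [Set.mem_insert_iff, Set.mem_singleton_iff] at hy
    rcases hy with rfl | rfl | rfl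
    · have h := (eigenIdeal (ph F)).mul_mem_left (-C Complex.I) g01
      rw [m01] at h
      have e : -C Complex.I * (C Complex.I * ph (E0 F)) = ph (E0 F) := by
        linear_combination (-ph (E0 F)) * hI2
      rwa [e] at h
    · have h := (eigenIdeal (ph F)).add_mem g02
        ((eigenIdeal (ph F)).mul_mem_left (C Complex.I) g12)
      rw [m02, m12] at h
      have e : C (1/2) * ph (E1 F) + ph (E2 F) +
          C Complex.I * (- C Complex.I * (C (1/2) * ph (E1 F) - ph (E2 F))) = ph (E1 F) := by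
        linear_combination (-(C (1/2) * ph (E1 F) - ph (E2 F))) * hI2 + ph (E1 F) * h2
      rwa [e] at h
    · have h := (eigenIdeal (ph F)).mul_mem_left (C (1/2)) ((eigenIdeal (ph F)).sub_mem g02
        ((eigenIdeal (ph F)).mul_mem_left (C Complex.I) g12))
      rw [m02, m12] at h
      have e : C (1/2) * (C (1/2) * ph (E1 F) + ph (E2 F) -
          C Complex.I * (- C Complex.I * (C (1/2) * ph (E1 F) - ph (E2 F)))) = ph (E2 F) := by
        linear_combination (C (1/2) * (C (1/2) * ph (E1 F) - ph (E2 F))) * hI2 + ph (E2 F) * h2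
      rwa [e] at h

lemma point_eq : pointIdeal ww = P0.map ((sig : S ≃+* S) : S →+* S) := by
  unfold P0
  rw [Ideal.map_span]
  apply le_antisymm
  · unfold pointIdeal
    rw [Ideal.span_le]
    rintro g ⟨i, j, rfl⟩
    set J : Ideal S := Ideal.span (((sig : S ≃+* S) : S →+* S) '' {X 1, X 2}) with hJ
    have k1 : ph (X 1) ∈ J := Ideal.subset_span ⟨X 1, by simp, rfl⟩
    have k2 : ph (X 2) ∈ J := Ideal.subset_span ⟨X 2, by simp, rfl⟩
    rw [ph1] at k1
    rw [ph2] at k2
    have q01 : C (ww 0) * X 1 - C (ww 1) * X 0 ∈ J := by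
      have e : C (ww 0) * X 1 - C (ww 1) * X 0 =
          (2 * C Complex.I) * (C (1/2) * (X 0 - C Complex.I * X 1) : S) := by
        simp only [ww, Matrix.cons_val_zero, Matrix.cons_val_one, map_one, map_neg]
        linear_combination (2 * C (1/2) * X 1 : S) * hI2 -
          (X 1 + C Complex.I * X 0 : S) * h2
      rw [e]
      exact J.mul_mem_left _ k1
    have q02 : C (ww 0) * X 2 - C (ww 2) * X 0 ∈ J := by
      have e : C (ww 0) * X 2 - C (ww 2) * X 0 = (X 2 : S) := by simp [ww]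
      rw [e]
      exact k2
    have q12 : C (ww 1) * X 2 - C (ww 2) * X 1 ∈ J := by
      have e : C (ww 1) * X 2 - C (ww 2) * X 1 = C (ww 1) * (X 2 : S) := by simp [ww]
      rw [e]
      exact J.mul_mem_left _ k2
    have r : ∀ a b : Fin 3, C (ww a) * X b - C (ww b) * X a ∈ J →
        C (ww b) * X a - C (ww a) * X b ∈ J := by
      intro a b h
      have := J.neg_mem h
      rwa [neg_sub] at this
    show C (ww i) * X j - C (ww j) * X i ∈ J
    fin_cases i <;> fin_cases j
    · simp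
    · exact q01
    · exact q02
    · exact r 0 1 q01
    · simp
    · exact q12
    · exact r 0 2 q02
    · exact r 1 2 q12
    · simp
  · rw [Ideal.span_le]
    have g : ∀ i j : Fin 3, C (ww i) * X j - C (ww j) * X i ∈ pointIdeal ww :=
      fun i j => Ideal.subset_span ⟨i, j, rfl⟩
    rintro x ⟨y, hy, rfl⟩
    show ph y ∈ pointIdeal ww
    simp only [Set.mem_insert_iff, Set.mem_singleton_iff] at hy
    rcases hy with rfl | rfl
    · have h := (pointIdeal ww).mul_mem_left (-C Complex.I * C (1/2)) (g 0 1)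
      have e : -C Complex.I * C (1/2) * (C (ww 0) * X 1 - C (ww 1) * X 0) = ph (X 1) := by
        rw [ph1]
        simp only [ww, Matrix.cons_val_zero, Matrix.cons_val_one, map_one, map_neg]
        linear_combination (-C (1/2) * X 0 : S) * hI2
      rwa [e] at h
    · have h := g 0 2
      have e : C (ww 0) * X 2 - C (ww 2) * X 0 = ph (X 2) := by
        rw [ph2]
        simp [ww]
      rwa [e] at h

lemma X0_not : (X 0 : S) ∉ P0 := by
  intro h
  have h1 : P0 ≤ RingHom.ker (eval ![1, 0, 0] : S →+* ℂ) := by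
    unfold P0
    rw [Ideal.span_le]
    intro x hx
    simp only [Set.mem_insert_iff, Set.mem_singleton_iff] at hx
    rcases hx with rfl | rfl <;> simp [RingHom.mem_ker]
  have h3 := h1 h
  simp [RingHom.mem_ker] at h3

end ModTra

end H28.EG
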